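import Mathlib

set_option autoImplicit false

namespace Pool.Agent.Results.MP_fd91d0_co.Disproof

/-- `B` is dissociated: distinct subsets of `B` have distinct sums. -/
def Dissoc {G : Type} [AddCommGroup G] (B : Finset G) : Prop :=
  ∀ S ∈ B.powerset, ∀ T ∈ B.powerset, ∑ x ∈ S, x = ∑ x ∈ T, x → S = T

/-- `dim A`: the largest size of a dissociated subset of `A`. -/
noncomputable def dimSet {G : Type} [AddCommGroup G] (A : Finset G) : ℕ :=
  sSup {k | ∃ B ⊆ A, Dissoc B ∧ B.card = k}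

/-- `dim (G, m)`: the least dimension of an `m`-element subset of `G`. -/
noncomputable def dimGrp (G : Type) [AddCommGroup G] (m : ℕ) : ℕ :=
  sInf {d | ∃ A : Finset G, A.card = m ∧ dimSet A = d}

theorem key : ∀ a b : ZMod 17, ∃ x ∈ ({1, -1} : Finset (ZMod 17)), ∃ y ∈ ({2, -2} : Finset (ZMod 17)),
    ∃ z ∈ ({4, -4} : Finset (ZMod 17)), ∃ w ∈ ({8, -8} : Finset (ZMod 17)),
    ∃ c ∈ ({1, 3} : Finset (ZMod 17)),
      a ∉ ({c * x, c * y, c * z, c * w} : Finset (ZMod 17)) ∧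
      b ∉ ({c * x, c * y, c * z, c * w} : Finset (ZMod 17)) := by decide +kernel

theorem key2 : ∀ x ∈ ({1, -1} : Finset (ZMod 17)), ∀ y ∈ ({2, -2} : Finset (ZMod 17)),
    ∀ z ∈ ({4, -4} : Finset (ZMod 17)), ∀ w ∈ ({8, -8} : Finset (ZMod 17)),
    ∀ c ∈ ({1, 3} : Finset (ZMod 17)),
      ({c * x, c * y, c * z, c * w} : Finset (ZMod 17)).card = 4 ∧
      (({c * x, c * y, c * z, c * w} : Finset (ZMod 17)).powerset.image
        (fun S => ∑ u ∈ S, u)).card = 16 := by decide +kernel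

theorem result :
    ¬ ∀ n m : ℕ, 1 ≤ m → m ≤ n → dimGrp (ZMod n) m = Nat.log 2 m := by
  intro h
  have h1 := h 17 15 (by norm_num) (by norm_num)
  have hne : {d | ∃ A : Finset (ZMod 17), A.card = 15 ∧ dimSet A = d}.Nonempty :=
    ⟨_, Finset.univ \ {0, 1}, by decide +kernel, rfl⟩
  obtain ⟨A, hA, hd⟩ := Nat.sInf_mem hne
  have e : Nat.log 2 15 = 3 := by norm_num
  have hd3 : dimSet A = 3 := by rw [hd, ← e, ← h1]; rfl
  have hc : Aᶜ.card = 2 := by rw [Finset.card_compl, hA]; rfl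
  obtain ⟨a, b, -, hab⟩ := Finset.card_eq_two.1 hc
  obtain ⟨x, hx, y, hy, z, hz, w, hw, c, hc', ha, hb⟩ := key a b
  obtain ⟨k1, k2⟩ := key2 x hx y hy z hz w hw c hc'
  generalize ({c * x, c * y, c * z, c * w} : Finset (ZMod 17)) = B at ha hb k1 k2
  have hB : B ⊆ A := by
    intro u hu
    by_contra hn
    have : u ∈ Aᶜ := Finset.mem_compl.2 hn
    rw [hab, Finset.mem_insert, Finset.mem_singleton] at this
    rcases this with rfl | rfl
    · exact ha hu
    · exact hb hu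
  have hD : Dissoc B := by
    have : Set.InjOn (fun S : Finset (ZMod 17) => ∑ u ∈ S, u) B.powerset := by
      rw [← Finset.card_image_iff, k2, Finset.card_powerset, k1]; rfl
    exact fun S hS T hT hST => this hS hT hST
  have : 4 ≤ dimSet A := by
    apply le_csSup
    · refine ⟨A.card, ?_⟩
      rintro k ⟨B', hB', -, rfl⟩
      exact Finset.card_le_card hB'
    · exact ⟨B, hB, hD, k1⟩
  omega

end Pool.Agent.Results.MP_fd91d0_co.Disproof
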